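import Pool.Agent.Helper31.BQ.Stmts2

/-! # Row WA: Walsh functions -/

set_option autoImplicit false

namespace Pool.Agent.Helper90.BQ

open Pool.Agent.Helper31.BQ

/-- one factor -/
def WA_s (a b : Bool) : ℝ := if a = true ∧ b = true then -1 else 1

theorem WA_abs (a b : Bool) : |WA_s a b| = 1 := by
  unfold WA_s
  split_ifs <;> simp

theorem WA_sum (a b : Bool) : ∑ x : Bool, WA_s a x * WA_s b x = if a = b then 2 else 0 := by
  unfold WA_s
  cases a <;> cases b <;> simp <;> norm_num

theorem st_WA : ST_WA := by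
  intro k
  have hc : Fintype.card (Fin (2 ^ (k + 2))) = Fintype.card (GG k) := by
    simp [GG]
  let e : Fin (2 ^ (k + 2)) ≃ GG k := Fintype.equivOfCardEq hc
  refine ⟨fun i g => ∏ l, WA_s (e i l) (g l), ?_, ?_⟩
  · intro i g
    rw [Finset.abs_prod]
    exact Finset.prod_eq_one fun l _ => WA_abs _ _
  · intro i j
    have h1 : ∀ g : GG k, (∏ l, WA_s (e i l) (g l)) * ∏ l, WA_s (e j l) (g l) =
        ∏ l, WA_s (e i l) (g l) * WA_s (e j l) (g l) := fun g => (Finset.prod_mul_distrib).symm
    simp only [h1]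
    have h2 := Finset.prod_univ_sum (fun _ : Fin (k + 2) => (Finset.univ : Finset Bool))
      (fun l x => WA_s (e i l) x * WA_s (e j l) x)
    rw [Fintype.piFinset_univ] at h2
    rw [← h2]
    simp only [WA_sum]
    by_cases hij : i = j
    · subst hij
      simp
    · rw [if_neg hij]
      have h3 : e i ≠ e j := fun h => hij (e.injective h)
      obtain ⟨l, hl⟩ := Function.ne_iff.1 h3
      exact Finset.prod_eq_zero (Finset.mem_univ l) (if_neg hl)

end Pool.Agent.Helper90.BQ
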